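import Pool.Agent.H24.Uc1
import Pool.Agent.H24.Uc6

set_option autoImplicit false

namespace Pool.Agent.Results.MP_07a0c6_lc.Full
open Pool.Agent.H11.PT Pool.Agent.H24.Uc

theorem result : (∃ f : ℕ × List (ℕ × ℕ) → ℕ, PolyTime bits bits f ∧
    ∀ y, (gr y.1 y.2).IsTree → IsLeast {w | UC (gr y.1 y.2) w} (f y)) ∧
    NPComplete UCB ∧ NPComplete UCI :=
  ⟨⟨alg, pt_alg.polyTime, fun _ hy => main hy⟩, ⟨npb, hardb⟩, np, hard⟩

end Pool.Agent.Results.MP_07a0c6_lc.Full
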